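import Mathlib.Computability.Primrec.Basic
import Pool.Agent.H85.SA.Snd

/-! # [H61 SA] The bound `Phi` is primitive recursive -/

namespace Pool.Agent.H61.SA

open Pool.Agent.H77.SF Pool.Agent.H85.SA

theorem prim_pow {f g : ℕ → ℕ} (hf : Primrec f) (hg : Primrec g) : Primrec fun n => f n ^ g n := by
  have h2 : Primrec₂ fun (n : ℕ) (p : ℕ × ℕ) => p.2 * f n :=
    (Primrec.nat_mul.comp (Primrec.snd.comp Primrec.snd) (hf.comp Primrec.fst)).to₂
  refine (Primrec.nat_rec' hg (Primrec.const 1) h2).of_eq fun n => ?_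
  generalize g n = k
  induction k with
  | zero => rfl
  | succ k ih => rw [pow_succ, ← ih]

theorem prim_add {f g : ℕ → ℕ} (hf : Primrec f) (hg : Primrec g) : Primrec fun n => f n + g n :=
  Primrec.nat_add.comp hf hg

theorem prim_mul {f g : ℕ → ℕ} (hf : Primrec f) (hg : Primrec g) : Primrec fun n => f n * g n :=
  Primrec.nat_mul.comp hf hg

theorem prim_kp {s W : ℕ → ℕ} (hs : Primrec s) (hW : Primrec W) : Primrec fun n => kp (s n) (W n) := by
  unfold kp
  exact prim_mul (prim_mul (Primrec.const 2) hs) (prim_add (prim_mul (Primrec.const 4) hW) (Primrec.const 1))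

theorem prim_kk {s W : ℕ → ℕ} (hs : Primrec s) (hW : Primrec W) : Primrec fun n => kk (s n) (W n) := by
  unfold kk
  exact prim_mul (prim_add (prim_mul (Primrec.const 88) hW) (Primrec.const 46)) hs

theorem prim_N0 {r s W : ℕ → ℕ} (hr : Primrec r) (hs : Primrec s) (hW : Primrec W) :
    Primrec fun n => N0 (r n) (s n) (W n) := by
  unfold N0
  exact prim_add (prim_mul (prim_mul (prim_mul (prim_mul (Primrec.const 2) hr) hs) hW)
    (prim_add (prim_mul (Primrec.const 4) hW) (Primrec.const 1))) hW

theorem prim_c1 {r s m W : ℕ → ℕ} (hr : Primrec r) (hs : Primrec s) (hm : Primrec m) (hW : Primrec W) :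
    Primrec fun n => c1 (r n) (s n) (m n) (W n) := by
  unfold c1
  exact prim_add (prim_add (prim_add hm (prim_mul (Primrec.const 2) (prim_add (prim_add
    (prim_mul (Primrec.const 11) hW) (prim_mul (prim_add hr (Primrec.const 1)) hm)) (Primrec.const 1))))
    (prim_mul (prim_kp hs hW) (prim_add (Primrec.const 1) (prim_mul (prim_mul (Primrec.const 4) hr)
      (prim_N0 hr hs hW))))) (prim_mul (prim_mul (Primrec.const 4) hs) hW)

theorem prim_c3 {r s m W : ℕ → ℕ} (hr : Primrec r) (hs : Primrec s) (hm : Primrec m) (hW : Primrec W) :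
    Primrec fun n => c3 (r n) (s n) (m n) (W n) := by
  unfold c3
  exact prim_add (prim_mul (prim_add (Primrec.const 2) (prim_kp hs hW))
    (prim_mul (prim_add hr (Primrec.const 1)) hm)) (prim_mul (prim_mul (Primrec.const 2) hW) (prim_kk hs hW))

theorem prim_E0 {r s m W : ℕ → ℕ} (hr : Primrec r) (hs : Primrec s) (hm : Primrec m) (hW : Primrec W) :
    Primrec fun n => E0 (r n) (s n) (m n) (W n) := by
  unfold E0
  exact prim_mul (prim_kk hs hW) (prim_add (prim_add
    (prim_add (Primrec.const 3) (prim_mul (prim_kp hs hW) hr))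
    (prim_mul (Primrec.const 2) (prim_add (prim_c1 hr hs hm hW)
      (prim_pow (prim_add (Primrec.const 2) (prim_mul (prim_kp hs hW) hr)) (Primrec.const 2)))))
    (prim_mul (prim_add (prim_c3 hr hs hm hW) hW) (prim_add hr (Primrec.const 1))))

theorem prim_TT : Primrec TT := by
  have h : Primrec fun Z : ℕ => (2 * Z + 2) ^ (Z + 3) :=
    prim_pow (prim_add (prim_mul (Primrec.const 2) Primrec.id) (Primrec.const 2))
      (prim_add Primrec.id (Primrec.const 3))
  exact h

theorem prim_Phi : Primrec Phi := by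
  have h : Primrec fun Z : ℕ => (Z + 1) ^ 5 * TT Z ^ (6 * E0 Z Z Z Z * Z + 5 * Z + 2) := by
    refine prim_mul (prim_pow (prim_add Primrec.id (Primrec.const 1)) (Primrec.const 5)) (prim_pow prim_TT ?_)
    refine prim_add (prim_add (prim_mul (prim_mul (Primrec.const 6) ?_) Primrec.id)
      (prim_mul (Primrec.const 5) Primrec.id)) (Primrec.const 2)
    exact prim_E0 Primrec.id Primrec.id Primrec.id Primrec.id
  exact h

end Pool.Agent.H61.SA
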